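import Pool.Agent.helper35.FGN.Spec

/-!
# fgn:DEGL: two elements with the same left vertex and the same line of rows
-/

set_option autoImplicit false

namespace Pool.Agent.FGN

open Matrix Pool.Agent.H48SL Pool.Agent.UG

theorem DEGL_vv {n : ℕ} (a b c d : Fin n → ℚ) : vecMulVec a b * vecMulVec c d = (b ⬝ᵥ c) • vecMulVec a d := by
  ext i j
  simp only [Matrix.mul_apply, vecMulVec_apply, Matrix.smul_apply, smul_eq_mul, dotProduct]
  rw [Finset.sum_mul]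
  exact Finset.sum_congr rfl fun k _ => by ring

theorem DEGL_mv {n : ℕ} (a b x : Fin n → ℚ) : vecMulVec a b *ᵥ x = (b ⬝ᵥ x) • a := by
  ext i
  simp only [mulVec, dotProduct, vecMulVec_apply, Pi.smul_apply, smul_eq_mul]
  rw [Finset.sum_mul]
  exact Finset.sum_congr rfl fun k _ => by ring

theorem DEGL_neg {n : ℕ} (v : Fin n → ℤ) : castV (-v) = -castV v := by
  ext i
  simp [castV]

/-- integral powers of a unipotent matrix -/
theorem DEGL_zpow {n : ℕ} (u : SLZ n) (N : MQ n) (hN : qg u = 1 + N) (h3 : N * N * N = 0) (m : ℤ) :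
    qg (u ^ m) = 1 + (m : ℚ) • N + ((m : ℚ) * (m - 1) / 2) • (N * N) := by
  have h3' : N * (N * N) = 0 := by rw [← mul_assoc, h3]
  have h4 : N * N * (N * N) = 0 := by rw [← mul_assoc, h3, zero_mul]
  have hE : ∀ a b : ℚ, (1 + a • N + (a * (a - 1) / 2) • (N * N)) * (1 + b • N + (b * (b - 1) / 2) • (N * N)) =
      1 + (a + b) • N + ((a + b) * (a + b - 1) / 2) • (N * N) := by
    intro a b
    simp only [add_mul, mul_add, one_mul, mul_one, smul_mul_assoc, mul_smul_comm, h3, h3', h4, smul_zero, add_zero]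
    module
  have hE1 : qg u = 1 + (1 : ℚ) • N + ((1 : ℚ) * (1 - 1) / 2) • (N * N) := by
    rw [hN]
    module
  have hEi : qg u⁻¹ = 1 + (-1 : ℚ) • N + ((-1 : ℚ) * (-1 - 1) / 2) • (N * N) := by
    have h5 : qg u * (1 + (-1 : ℚ) • N + ((-1 : ℚ) * (-1 - 1) / 2) • (N * N)) = 1 := by
      rw [hE1, hE]
      module
    calc qg u⁻¹ = qg u⁻¹ * (qg u * (1 + (-1 : ℚ) • N + ((-1 : ℚ) * (-1 - 1) / 2) • (N * N))) := by
          rw [h5, mul_one]
      _ = _ := by rw [← mul_assoc, qg_inv_mul, one_mul]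
  induction m with
  | zero =>
    rw [zpow_zero, qg_one]
    simp
  | succ i ih =>
    rw [_root_.zpow_add_one, qg_mul, ih, hE1, hE]
    push_cast
    rfl
  | pred i ih =>
    rw [_root_.zpow_sub_one, qg_mul, ih, hEi, hE]
    push_cast
    rw [← sub_eq_add_neg]

theorem DEGL_prim {n : ℕ} (v v' x x' : Fin n → ℤ) (hxv : x ⬝ᵥ v = 1) (_hxv' : x' ⬝ᵥ v' = 1) (S : Set (Fin n → ℤ))
    (h : ∀ z, z ∈ S ↔ ∃ a : ℤ, z = a • v) (h' : ∀ z, z ∈ S ↔ ∃ a : ℤ, z = a • v') : v' = v ∨ v' = -v := by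
  obtain ⟨a, ha⟩ := (h' v).1 ((h v).2 ⟨1, (one_smul _ _).symm⟩)
  obtain ⟨b, hb⟩ := (h v').1 ((h' v').2 ⟨1, (one_smul _ _).symm⟩)
  have hab : b * a = 1 := by
    have h1 := hxv
    rw [ha, hb, dotProduct_smul, dotProduct_smul, hxv] at h1
    simp only [smul_eq_mul, mul_one] at h1
    rw [mul_comm]
    exact h1
  rcases Int.eq_one_or_neg_one_of_mul_eq_one hab with hb1 | hb1
  · left
    rw [hb, hb1, one_smul]
  · right
    rw [hb, hb1, neg_smul, one_smul]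

/-- the normal form of `STR` -/
def DEGL_P {n : ℕ} (u : SLZ n) (v f : Fin n → ℤ) (w g : Fin n → ℚ) : Prop :=
  castV f ⬝ᵥ w = 0 ∧ g ⬝ᵥ castV v = 0 ∧ g ⬝ᵥ w ≠ 0 ∧ qg u = 1 + vecMulVec w (castV f) + vecMulVec (castV v) g ∧
    (∀ z, z ∈ FixV u ↔ f ⬝ᵥ z = 0 ∧ g ⬝ᵥ castV z = 0) ∧ ∀ z, z ∈ FixR u ↔ z ⬝ᵥ v = 0 ∧ castV z ⬝ᵥ w = 0

theorem DEGL_negv {n : ℕ} (u : SLZ n) (v f : Fin n → ℤ) (w g : Fin n → ℚ) (h : DEGL_P u (-v) f w g) :
    DEGL_P u v f w (-g) := by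
  obtain ⟨h1, h2, h3, h4, h5, h6⟩ := h
  refine ⟨h1, ?_, ?_, ?_, ?_, ?_⟩
  · rw [DEGL_neg, dotProduct_neg] at h2
    rw [neg_dotProduct]
    exact h2
  · rw [neg_dotProduct]
    exact neg_ne_zero.2 h3
  · rw [h4, DEGL_neg, neg_vecMulVec, vecMulVec_neg]
  · intro z
    rw [h5 z, neg_dotProduct, neg_eq_zero]
  · intro z
    rw [h6 z, dotProduct_neg, neg_eq_zero]

theorem DEGL_negf {n : ℕ} (u : SLZ n) (v f : Fin n → ℤ) (w g : Fin n → ℚ) (h : DEGL_P u v (-f) w g) :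
    DEGL_P u v f (-w) g := by
  obtain ⟨h1, h2, h3, h4, h5, h6⟩ := h
  refine ⟨?_, h2, ?_, ?_, ?_, ?_⟩
  · rw [DEGL_neg, neg_dotProduct] at h1
    rw [dotProduct_neg]
    exact h1
  · rw [dotProduct_neg]
    exact neg_ne_zero.2 h3
  · rw [h4, DEGL_neg, neg_vecMulVec, vecMulVec_neg]
  · intro z
    rw [h5 z, neg_dotProduct, neg_eq_zero]
  · intro z
    rw [h6 z, dotProduct_neg, neg_eq_zero]

/-- a row which vanishes on the common kernel of `F` and `g` -/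
theorem DEGL_span {n : ℕ} (f y : Fin n → ℤ) (w g g1 : Fin n → ℚ) (hyf : y ⬝ᵥ f = 1) (hfw : castV f ⬝ᵥ w = 0) (hgw : g ⬝ᵥ w ≠ 0)
    (h : ∀ z : Fin n → ℤ, f ⬝ᵥ z = 0 → g ⬝ᵥ castV z = 0 → g1 ⬝ᵥ castV z = 0) :
    ∃ ρ σ : ℚ, g1 = ρ • g + σ • castV f := by
  have hr : ∀ z : Fin n → ℚ, castV f ⬝ᵥ z = 0 → g ⬝ᵥ z = 0 → g1 ⬝ᵥ z = 0 := by
    intro z h1 h2
    obtain ⟨N, z', hN, hz'⟩ := clear_denom z
    have h3 : f ⬝ᵥ z' = 0 := by
      have h4 := castV_dot f z'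
      rw [hz', dotProduct_smul, h1, smul_zero] at h4
      exact_mod_cast h4.symm
    have h5 := h z' h3 (by rw [hz', dotProduct_smul, h2, smul_zero])
    rw [hz', dotProduct_smul, smul_eq_mul] at h5
    rcases mul_eq_zero.1 h5 with h6 | h6
    · exact absurd (by exact_mod_cast h6) hN
    · exact h6
  have hY : castV f ⬝ᵥ castV y = 1 := by
    rw [castV_dot, dotProduct_comm, hyf, Int.cast_one]
  refine ⟨(g1 ⬝ᵥ w) / (g ⬝ᵥ w), g1 ⬝ᵥ castV y - (g1 ⬝ᵥ w) / (g ⬝ᵥ w) * (g ⬝ᵥ castV y), ?_⟩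
  have hall : ∀ z : Fin n → ℚ, g1 ⬝ᵥ z = ((g1 ⬝ᵥ w) / (g ⬝ᵥ w)) * (g ⬝ᵥ z) +
      (g1 ⬝ᵥ castV y - (g1 ⬝ᵥ w) / (g ⬝ᵥ w) * (g ⬝ᵥ castV y)) * (castV f ⬝ᵥ z) := by
    intro z
    have h1 := hr (z - (castV f ⬝ᵥ z) • castV y - ((g ⬝ᵥ z - (castV f ⬝ᵥ z) * (g ⬝ᵥ castV y)) / (g ⬝ᵥ w)) • w) (by
      rw [dotProduct_sub, dotProduct_sub, dotProduct_smul, dotProduct_smul, hY, hfw, smul_eq_mul, smul_eq_mul]
      ring) (by
      rw [dotProduct_sub, dotProduct_sub, dotProduct_smul, dotProduct_smul, smul_eq_mul, smul_eq_mul,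
        div_mul_cancel₀ _ hgw]
      ring)
    rw [dotProduct_sub, dotProduct_sub, dotProduct_smul, dotProduct_smul, smul_eq_mul, smul_eq_mul] at h1
    have h2 : g1 ⬝ᵥ z = (castV f ⬝ᵥ z) * (g1 ⬝ᵥ castV y) +
        (g ⬝ᵥ z - (castV f ⬝ᵥ z) * (g ⬝ᵥ castV y)) / (g ⬝ᵥ w) * (g1 ⬝ᵥ w) := by linarith
    rw [h2]
    ring
  ext i
  have h1 := hall (Pi.single i 1)
  rw [dotProduct_single_one, dotProduct_single_one, dotProduct_single_one] at h1
  rw [h1]
  simp only [Pi.add_apply, Pi.smul_apply, smul_eq_mul]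

theorem DEGL (hFCQ : Pool.Agent.LV.FCQ_stmt) (hSTR : STR_stmt) : DEGL_stmt := by
  intro n hn H hH u hu u' hu' hU hU' hL hI hR
  obtain ⟨v, f, x, y, w, g, hxv, hyf, hfv, hfw, hgv, hgw, hq, hImV, hImR, hFV, hFR⟩ := hSTR n u hU
  have hP : ∃ w1 g1 : Fin n → ℚ, DEGL_P u' v f w1 g1 := by
    obtain ⟨v', f', x', y', w', g', hxv', hyf', hfv', hfw', hgv', hgw', hq', hImV', hImR', hFV', hFR'⟩ := hSTR n u' hU'
    have hP' : DEGL_P u' v' f' w' g' := ⟨hfw', hgv', hgw', hq', hFV', hFR'⟩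
    have hv := DEGL_prim v v' x x' hxv hxv' (ImV u) hImV (by rw [hL.2]; exact hImV')
    have hf := DEGL_prim f f' y y' hyf hyf' (ImR u) hImR (by rw [hI]; exact hImR')
    have hP1 : ∃ g1, DEGL_P u' v f' w' g1 := by
      rcases hv with hv | hv
      · exact ⟨g', by rw [← hv]; exact hP'⟩
      · exact ⟨-g', DEGL_negv _ _ _ _ _ (by rw [← hv]; exact hP')⟩
    obtain ⟨g1, hg1⟩ := hP1
    rcases hf with hf | hf
    · exact ⟨w', g1, by rw [← hf]; exact hg1⟩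
    · exact ⟨-w', g1, DEGL_negf _ _ _ _ _ (by rw [← hf]; exact hg1)⟩
  obtain ⟨w1, g1, hfw1, hg1v, hg1w1, hq1, hFV1, hFR1⟩ := hP
  obtain ⟨ρ, σ, hg1⟩ := DEGL_span f y w g g1 hyf hfw hgw (by
    intro z h1 h2
    have h3 : z ∈ FixV u' := by
      rw [← hL.1]
      exact (hFV z).2 ⟨h1, h2⟩
    exact ((hFV1 z).1 h3).2)
  have hρ : ρ ≠ 0 := by
    intro h0
    apply hg1w1
    rw [hg1, h0, zero_smul, zero_add, smul_dotProduct, hfw1, smul_zero]
  have hFV0 : castV f ⬝ᵥ castV v = 0 := by rw [castV_dot, hfv, Int.cast_zero]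
  have hv0 : v ≠ 0 := by
    intro h0
    rw [h0, dotProduct_zero] at hxv
    exact zero_ne_one hxv
  have hf0 : f ≠ 0 := by
    intro h0
    rw [h0, dotProduct_zero] at hyf
    exact zero_ne_one hyf
  have hF0 : castV f ≠ 0 := by
    intro h0
    exact hf0 (castV_inj (h0.trans castV_zero.symm))
  -- the integers
  set m : ℤ := -ρ.num with hm
  set k : ℤ := (ρ.den : ℤ) with hk
  have hm0 : (m : ℚ) ≠ 0 := by
    have : m ≠ 0 := neg_ne_zero.2 (Rat.num_ne_zero.2 hρ)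
    exact_mod_cast this
  have hk0 : (k : ℚ) ≠ 0 := by
    have : k ≠ 0 := by
      rw [hk]
      exact_mod_cast ρ.den_ne_zero
    exact_mod_cast this
  have hmk : (m : ℚ) = -(k * ρ) := by
    have h1 := Rat.mul_den_eq_num ρ
    rw [hm, hk]
    push_cast
    rw [← h1]
    ring
  set a := vecMulVec w (castV f) with ha
  set b := vecMulVec (castV v) g with hb
  set c := vecMulVec (castV v) (castV f) with hc
  set a1 := vecMulVec w1 (castV f) with ha1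
  have hqN : qg u = 1 + (a + b) := by rw [hq, add_assoc]
  have hb1 : vecMulVec (castV v) g1 = ρ • b + σ • c := by
    rw [hg1, hb, hc]
    ext i j
    simp only [vecMulVec_apply, Matrix.add_apply, Matrix.smul_apply, Pi.add_apply, Pi.smul_apply, smul_eq_mul]
    ring
  have hqN1 : qg u' = 1 + (a1 + (ρ • b + σ • c)) := by rw [hq1, ← hb1, add_assoc]
  have p_aa : a * a = 0 := by rw [ha, DEGL_vv, hfw, zero_smul]
  have p_ab : a * b = 0 := by rw [ha, hb, DEGL_vv, hFV0, zero_smul]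
  have p_ba : b * a = (g ⬝ᵥ w) • c := by rw [ha, hb, DEGL_vv]
  have p_bb : b * b = 0 := by rw [hb, DEGL_vv, hgv, zero_smul]
  have p_ac : a * c = 0 := by rw [ha, hc, DEGL_vv, hFV0, zero_smul]
  have p_bc : b * c = 0 := by rw [hb, hc, DEGL_vv, hgv, zero_smul]
  have p_ca : c * a = 0 := by rw [ha, hc, DEGL_vv, hfw, zero_smul]
  have p_cb : c * b = 0 := by rw [hb, hc, DEGL_vv, hFV0, zero_smul]
  have p_cc : c * c = 0 := by rw [hc, DEGL_vv, hFV0, zero_smul]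
  have p_a1a1 : a1 * a1 = 0 := by rw [ha1, DEGL_vv, hfw1, zero_smul]
  have p_a1b : a1 * b = 0 := by rw [ha1, hb, DEGL_vv, hFV0, zero_smul]
  have p_ba1 : b * a1 = (g ⬝ᵥ w1) • c := by rw [ha1, hb, DEGL_vv]
  have p_a1c : a1 * c = 0 := by rw [ha1, hc, DEGL_vv, hFV0, zero_smul]
  have p_ca1 : c * a1 = 0 := by rw [ha1, hc, DEGL_vv, hfw1, zero_smul]
  have p_aa1 : a * a1 = 0 := by rw [ha, ha1, DEGL_vv, hfw1, zero_smul]
  have hNN : (a + b) * (a + b) = (g ⬝ᵥ w) • c := by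
    simp only [add_mul, mul_add, p_aa, p_ab, p_ba, p_bb, zero_add, add_zero]
  have hNNN : (a + b) * (a + b) * (a + b) = 0 := by
    rw [hNN]
    simp only [mul_add, smul_mul_assoc, p_ca, p_cb, smul_zero, add_zero]
  have hNN1 : (a1 + (ρ • b + σ • c)) * (a1 + (ρ • b + σ • c)) = (ρ * (g ⬝ᵥ w1)) • c := by
    simp only [add_mul, mul_add, smul_mul_assoc, mul_smul_comm, p_a1a1, p_a1b, p_ba1, p_bb, p_a1c, p_ca1, p_bc, p_cb, p_cc,
      smul_zero, zero_add, add_zero, smul_smul]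
  have hNNN1 : (a1 + (ρ • b + σ • c)) * (a1 + (ρ • b + σ • c)) * (a1 + (ρ • b + σ • c)) = 0 := by
    rw [hNN1]
    simp only [mul_add, smul_mul_assoc, mul_smul_comm, p_ca1, p_cb, p_cc, smul_zero, add_zero]
  have hum := DEGL_zpow u (a + b) hqN hNNN
  have huk := DEGL_zpow u' (a1 + (ρ • b + σ • c)) hqN1 hNNN1
  set s : ℚ := (m : ℚ) * (m - 1) / 2 * (g ⬝ᵥ w) + (k : ℚ) * (k - 1) / 2 * (ρ * (g ⬝ᵥ w1)) + k * σ + m * k * (g ⬝ᵥ w1) with hs
  set X : Fin n → ℚ := (m : ℚ) • w + (k : ℚ) • w1 + s • castV v with hX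
  have hXF : vecMulVec X (castV f) = (m : ℚ) • a + (k : ℚ) • a1 + s • c := by
    rw [hX, ha, ha1, hc]
    ext i j
    simp only [vecMulVec_apply, Matrix.add_apply, Matrix.smul_apply, Pi.add_apply, Pi.smul_apply, smul_eq_mul]
    ring
  have hz : qg (u ^ m * u' ^ k) = 1 + vecMulVec X (castV f) := by
    rw [qg_mul, hum m, huk k, hNN, hNN1, hXF]
    simp only [add_mul, mul_add, one_mul, mul_one, smul_mul_assoc, mul_smul_comm, p_aa1, p_ab, p_ac, p_ba1, p_bb, p_bc, p_ca1,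
      p_cb, p_cc, smul_zero, zero_add, add_zero, smul_smul, smul_add]
    rw [hs, hmk]
    module
  have hX0 : X ≠ 0 := by
    intro h0
    apply hR
    ext z
    rw [hFR z, hFR1 z]
    refine and_congr_right fun hzv => ?_
    have h1 : castV z ⬝ᵥ X = 0 := by rw [h0, dotProduct_zero]
    have h2 : castV z ⬝ᵥ castV v = 0 := by rw [castV_dot, hzv, Int.cast_zero]
    rw [hX, dotProduct_add, dotProduct_add, dotProduct_smul, dotProduct_smul, dotProduct_smul, h2, smul_zero, add_zero,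
      smul_eq_mul, smul_eq_mul] at h1
    constructor
    · intro h3
      rw [h3, mul_zero, zero_add] at h1
      exact (mul_eq_zero.1 h1).resolve_left hk0
    · intro h3
      rw [h3, mul_zero, add_zero] at h1
      exact (mul_eq_zero.1 h1).resolve_left hm0
  have hFX : castV f ⬝ᵥ X = 0 := by
    rw [hX, dotProduct_add, dotProduct_add, dotProduct_smul, dotProduct_smul, dotProduct_smul, hfw, hfw1, hFV0, smul_zero,
      smul_zero, smul_zero, add_zero, add_zero]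
  clear_value X
  have hc0 : c ≠ 0 := by
    intro h0
    obtain ⟨i, hi⟩ := Function.ne_iff.1 hv0
    obtain ⟨j, hj⟩ := Function.ne_iff.1 hf0
    have h1 := congrFun (congrFun h0 i) j
    rw [hc, vecMulVec_apply] at h1
    simp only [castV, Matrix.zero_apply, mul_eq_zero, Int.cast_eq_zero] at h1
    rcases h1 with h1 | h1
    · exact hi h1
    · exact hj h1
  refine hFCQ n hn H hH (u ^ m * u' ^ k) (H.mul_mem (H.zpow_mem hu m) (H.zpow_mem hu' k)) u hu X (castV f) hX0 hF0 hFX hz ?_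
    (Or.inr ?_)
  · have e1 : qg u *ᵥ X = X + ((castV f ⬝ᵥ X) • w + (g ⬝ᵥ X) • castV v) := by
      rw [hqN, add_mulVec, add_mulVec, one_mulVec, ha, hb, DEGL_mv, DEGL_mv]
    rw [e1, dotProduct_add, dotProduct_add, dotProduct_smul, dotProduct_smul, hFX, hFV0, smul_zero, zero_smul, add_zero, add_zero]
  · intro j hj i h0
    have hXX : vecMulVec X (castV f) * vecMulVec X (castV f) = 0 := by rw [DEGL_vv, hFX, zero_smul]
    have h1 := DEGL_zpow (u ^ m * u' ^ k) (vecMulVec X (castV f)) hz (by rw [hXX, zero_mul]) i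
    have h2 := hum (j : ℤ)
    rw [zpow_natCast, h0, h1, hXX, hNN, smul_zero, add_zero] at h2
    have h3 : (i : ℚ) • vecMulVec X (castV f) = ((j : ℤ) : ℚ) • (a + b) + (((j : ℤ) : ℚ) * (((j : ℤ) : ℚ) - 1) / 2) • (g ⬝ᵥ w) • c := by
      rw [add_assoc] at h2
      exact add_left_cancel h2
    have h5 := congrArg (fun M => M * M) h3
    simp only [smul_mul_assoc, mul_smul_comm, add_mul, mul_add, hXX, p_aa, p_ab, p_ba, p_bb, p_ac, p_bc, p_ca, p_cb, p_cc, smul_zero,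
      zero_add, add_zero, smul_smul, smul_add] at h5
    have h6 : ((j : ℤ) : ℚ) * (((j : ℤ) : ℚ) * (g ⬝ᵥ w)) ≠ 0 := by
      have h7 : ((j : ℤ) : ℚ) ≠ 0 := by
        have : (j : ℤ) ≠ 0 := by omega
        exact_mod_cast this
      exact mul_ne_zero h7 (mul_ne_zero h7 hgw)
    rcases smul_eq_zero.1 h5.symm with h7 | h7
    · exact h6 (by rw [← h7])
    · exact hc0 h7

end Pool.Agent.FGN
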